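import Pool.Agent.W221.NS.Stm2

set_option autoImplicit false
set_option linter.unusedVariables false

/-! The additional sums over all scales. -/

open MeasureTheory Set
open scoped ContDiff

namespace Pool.Agent.W930.ME

open H459R3.NS W221.NS

lemma rr_pos (k : ℕ) : 0 < rr k := by unfold rr; positivity

lemma rr_anti {k m : ℕ} (h : k ≤ m) : rr m ≤ rr k := by
  unfold rr
  exact pow_le_pow_of_le_one (by norm_num) (by norm_num) h

lemma ite_int {a b s : ℝ} (hab : b ≤ a) (X : ℝ → ℝ) :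
    ∫ t in Ioc b s, (if a < t then X t else 0) = ∫ t in Ioc a s, X t := by
  have h1 : (fun t => if a < t then X t else 0) = (Ioi a).indicator X := by
    funext t
    by_cases h : a < t
    · rw [if_pos h, indicator_of_mem (mem_Ioi.2 h)]
    · rw [if_neg h, indicator_of_notMem (fun h' => h (mem_Ioi.1 h'))]
  rw [h1, setIntegral_indicator measurableSet_Ioi]
  congr 2
  ext t
  simp only [mem_inter_iff, mem_Ioc, mem_Ioi]
  constructor
  · rintro ⟨⟨_, h2⟩, h3⟩
    exact ⟨h3, h2⟩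
  · rintro ⟨h2, h3⟩
    exact ⟨⟨lt_of_le_of_lt hab h2, h3⟩, h2⟩

lemma ite_integrable {a b s : ℝ} {X : ℝ → ℝ} (hX : IntegrableOn X (Ioc b s)) :
    IntegrableOn (fun t => if a < t then X t else 0) (Ioc b s) := by
  have h1 : (fun t => if a < t then X t else 0) = (Ioi a).indicator X := by
    funext t
    by_cases h : a < t
    · rw [if_pos h, indicator_of_mem (mem_Ioi.2 h)]
    · rw [if_neg h, indicator_of_notMem (fun h' => h (mem_Ioi.1 h'))]
  rw [h1]
  exact hX.indicator measurableSet_Ioi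

/-- the active scales -/
lemma act (n : ℕ) (δ : ℝ) (hδ : 0 ≤ δ) :
    ∑ k ∈ Finset.Icc 5 n, (if δ < rr k ^ 2 then (2 : ℝ) ^ k * √(rr n ^ 2 + δ) else 0) ≤ 3 := by
  rw [← Finset.sum_filter]
  set F := (Finset.Icc 5 n).filter (fun k => δ < rr k ^ 2) with hF
  rcases F.eq_empty_or_nonempty with h | h
  · rw [h, Finset.sum_empty]
    norm_num
  · set m := F.max' h with hm
    have hmF : m ∈ F := F.max'_mem h
    have hm1 := hmF
    rw [hF, Finset.mem_filter, Finset.mem_Icc] at hm1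
    have h1 : √(rr n ^ 2 + δ) ≤ √2 * rr m := by
      have h2 : rr n ^ 2 + δ ≤ 2 * rr m ^ 2 := by
        have h3 : rr n ^ 2 ≤ rr m ^ 2 := pow_le_pow_left₀ (rr_pos n).le (rr_anti hm1.1.2) 2
        linarith [hm1.2]
      refine (Real.sqrt_le_sqrt h2).trans (le_of_eq ?_)
      rw [Real.sqrt_mul (by norm_num), Real.sqrt_sq (rr_pos m).le]
    have h2 : ∑ k ∈ F, (2 : ℝ) ^ k ≤ 2 ^ (m + 1) := by
      have h3 : F ⊆ Finset.range (m + 1) := by
        intro k hk
        rw [Finset.mem_range]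
        exact Nat.lt_succ_of_le (F.le_max' k hk)
      have h4 : ∑ k ∈ F, (2 : ℝ) ^ k ≤ ∑ k ∈ Finset.range (m + 1), (2 : ℝ) ^ k :=
        Finset.sum_le_sum_of_subset_of_nonneg h3 fun _ _ _ => by positivity
      have h5 : ∑ k ∈ Finset.range (m + 1), (2 : ℝ) ^ k = 2 ^ (m + 1) - 1 := by
        rw [geom_sum_eq (by norm_num)]
        ring
      linarith
    rw [← Finset.sum_mul]
    have h3 : √2 ≤ 3 / 2 := by
      rw [Real.sqrt_le_left (by norm_num)]
      norm_num
    have h4 : (2 : ℝ) ^ (m + 1) * rr m = 2 := by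
      unfold rr
      rw [pow_succ, mul_right_comm, ← mul_pow]
      norm_num
    calc (∑ k ∈ F, (2 : ℝ) ^ k) * √(rr n ^ 2 + δ) ≤ 2 ^ (m + 1) * (√2 * rr m) :=
          mul_le_mul h2 h1 (Real.sqrt_nonneg _) (by positivity)
      _ = √2 * ((2 : ℝ) ^ (m + 1) * rr m) := by ring
      _ = √2 * 2 := by rw [h4]
      _ ≤ 3 := by linarith

lemma sum_half (n : ℕ) : ∑ k ∈ Finset.Icc 5 n, (1 / 2 : ℝ) ^ k ≤ 2 := by
  have h1 : Finset.Icc 5 n ⊆ Finset.range (n + 1) := by
    intro k hk
    rw [Finset.mem_Icc] at hk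
    rw [Finset.mem_range]
    omega
  exact (Finset.sum_le_sum_of_subset_of_nonneg h1 fun _ _ _ => by positivity).trans
    (sum_geometric_two_le (n + 1))

lemma sq_e (k : ℕ) : √((2 : ℝ) ^ k) * √(1 / 8 ^ k) = (1 / 2) ^ k := by
  rw [← Real.sqrt_mul (by positivity)]
  have : (2 : ℝ) ^ k * (1 / 8 ^ k) = ((1 / 2) ^ k) ^ 2 := by
    rw [← pow_mul, mul_comm k 2, pow_mul, one_div, ← inv_pow, ← mul_pow]
    norm_num
  rw [this, Real.sqrt_sq (by positivity)]

lemma young {g c : ℝ} (hg : 0 ≤ g) (hc : 0 < c) : √g ≤ (g * c + 1 / c) / 2 := by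
  have h1 : √g ^ 2 = g := Real.sq_sqrt hg
  have h2 : 0 ≤ (√g * c - 1) ^ 2 := sq_nonneg _
  have h3 : (g * c + 1 / c) / 2 - √g = (√g * c - 1) ^ 2 / (2 * c) := by
    field_simp
    linear_combination (-c ^ 2) * h1
  have h4 : 0 ≤ (√g * c - 1) ^ 2 / (2 * c) := by positivity
  linarith

theorem t_TSUMG : S_TSUMG := by
  refine ⟨5, by norm_num, ?_⟩
  intro Λ s ε n G hΛ hε hG hGi hGε
  set I := Ioc (s - rr 2 ^ 2) s with hI
  have hsε : 0 < √ε := Real.sqrt_pos.2 hε
  have hfin : IsFiniteMeasure (volume.restrict I) := by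
    constructor
    rw [Measure.restrict_apply_univ, hI, Real.volume_Ioc]
    exact ENNReal.ofReal_lt_top
  -- the square root
  have hsq : IntegrableOn (fun t => √(G t)) I := by
    refine Integrable.mono' ((integrable_const (1 : ℝ)).add hGi)
      (Real.continuous_sqrt.comp_aestronglyMeasurable hGi.1) ?_
    filter_upwards with t
    rw [Real.norm_eq_abs, abs_of_nonneg (Real.sqrt_nonneg _)]
    have h1 := Real.sq_sqrt (hG t)
    have h2 := Real.sqrt_nonneg (G t)
    show √(G t) ≤ 1 + G t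
    nlinarith [sq_nonneg (√(G t) - 1)]
  have hX : ∀ k : ℕ, IntegrableOn (fun t => √(G t) * Λ + G t * (√Λ * (√(2 ^ k) * √(1 / 8 ^ k) +
      2 ^ k * √(rr n ^ 2 + (s - t))))) I := by
    intro k
    refine (hsq.mul_const Λ).add ?_
    refine hGi.mul_continuousOn_of_subset (K := Icc (s - rr 2 ^ 2) s) ?_ measurableSet_Ioc
      isCompact_Icc Ioc_subset_Icc_self
    fun_prop
  have hf : IntegrableOn (fun t => ∑ k ∈ Finset.Icc 5 n, if s - rr k ^ 2 < t then
      √(G t) * Λ + G t * (√Λ * (√(2 ^ k) * √(1 / 8 ^ k) + 2 ^ k * √(rr n ^ 2 + (s - t)))) else 0)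
      I := by
    refine integrable_finsetSum _ fun k _ => ?_
    exact ite_integrable (hX k)
  refine ⟨hf, ?_⟩
  -- the majorant
  let c : ℕ → ℝ := fun k => (1 / 2) ^ k / √ε
  have hc : ∀ k, 0 < c k := fun k => by positivity
  have hY : ∀ k : ℕ, IntegrableOn (fun t => (G t * c k + 1 / c k) / 2) I := by
    intro k
    exact ((hGi.mul_const (c k)).add (integrable_const _)).div_const 2
  have hg1 : IntegrableOn (fun t => ∑ k ∈ Finset.Icc 5 n, if s - rr k ^ 2 < t then
      (G t * c k + 1 / c k) / 2 else 0) I :=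
    integrable_finsetSum _ fun k _ => ite_integrable (hY k)
  have hg : IntegrableOn (fun t => Λ * (∑ k ∈ Finset.Icc 5 n, if s - rr k ^ 2 < t then
      (G t * c k + 1 / c k) / 2 else 0) + 5 * √Λ * G t) I :=
    (hg1.const_mul Λ).add (hGi.const_mul (5 * √Λ))
  have hle : ∀ t ∈ I, (∑ k ∈ Finset.Icc 5 n, if s - rr k ^ 2 < t then
      √(G t) * Λ + G t * (√Λ * (√(2 ^ k) * √(1 / 8 ^ k) + 2 ^ k * √(rr n ^ 2 + (s - t)))) else 0) ≤
      Λ * (∑ k ∈ Finset.Icc 5 n, if s - rr k ^ 2 < t then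
      (G t * c k + 1 / c k) / 2 else 0) + 5 * √Λ * G t := by
    intro t ht
    have hδ : 0 ≤ s - t := by linarith [ht.2]
    have hsΛ := Real.sqrt_nonneg Λ
    have hGt := hG t
    have h1 : ∀ k ∈ Finset.Icc 5 n, (if s - rr k ^ 2 < t then
        √(G t) * Λ + G t * (√Λ * (√(2 ^ k) * √(1 / 8 ^ k) + 2 ^ k * √(rr n ^ 2 + (s - t)))) else 0) ≤
        Λ * (if s - rr k ^ 2 < t then (G t * c k + 1 / c k) / 2 else 0) +
          (√Λ * G t) * (1 / 2) ^ k +
          (√Λ * G t) * (if s - t < rr k ^ 2 then (2 : ℝ) ^ k * √(rr n ^ 2 + (s - t)) else 0) := by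
      intro k _
      by_cases hk : s - rr k ^ 2 < t
      · rw [if_pos hk, if_pos hk, if_pos (by linarith), sq_e]
        have h2 := young hGt (hc k)
        have h3 := mul_le_mul_of_nonneg_left h2 hΛ
        linarith
      · rw [if_neg hk, if_neg hk, if_neg (by linarith), mul_zero, mul_zero, zero_add, add_zero]
        positivity
    refine (Finset.sum_le_sum h1).trans ?_
    rw [Finset.sum_add_distrib, Finset.sum_add_distrib, ← Finset.mul_sum, ← Finset.mul_sum,
      ← Finset.mul_sum]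
    have h2 := sum_half n
    have h3 := act n (s - t) hδ
    have h4 : 0 ≤ √Λ * G t := by positivity
    have h5 := mul_le_mul_of_nonneg_left h2 h4
    have h6 := mul_le_mul_of_nonneg_left h3 h4
    linarith
  refine (setIntegral_mono_on hf hg measurableSet_Ioc hle).trans ?_
  rw [integral_add (hg1.const_mul Λ) (hGi.const_mul (5 * √Λ)), integral_const_mul,
    integral_const_mul, integral_finsetSum _ fun k _ => ite_integrable (hY k)]
  have hterm : ∀ k ∈ Finset.Icc 5 n, ∫ t in I, (if s - rr k ^ 2 < t then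
      (G t * c k + 1 / c k) / 2 else 0) ≤ √ε * (1 / 2) ^ k := by
    intro k hk
    rw [Finset.mem_Icc] at hk
    have hkr : rr k ^ 2 ≤ rr 2 ^ 2 := pow_le_pow_left₀ (rr_pos k).le (rr_anti (by omega)) 2
    have hsub : Ioc (s - rr k ^ 2) s ⊆ I := Ioc_subset_Ioc_left (by linarith)
    rw [hI, ite_int (by linarith)]
    have hGk : IntegrableOn G (Ioc (s - rr k ^ 2) s) := hGi.mono_set hsub
    have hGk' : ∫ t in Ioc (s - rr k ^ 2) s, G t ≤ ε :=
      (setIntegral_mono_set hGi (Filter.Eventually.of_forall hG) (hsub.eventuallyLE)).trans hGε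
    have hfin' : IsFiniteMeasure (volume.restrict (Ioc (s - rr k ^ 2) s)) := by
      constructor
      rw [Measure.restrict_apply_univ, Real.volume_Ioc]
      exact ENNReal.ofReal_lt_top
    rw [integral_div, integral_add (hGk.mul_const (c k)) (integrable_const _), integral_mul_const,
      setIntegral_const, Real.volume_real_Ioc_of_le (by linarith [sq_nonneg (rr k)]), smul_eq_mul]
    have h1 : s - (s - rr k ^ 2) = rr k ^ 2 := by ring
    rw [h1]
    have h2 : (∫ t in Ioc (s - rr k ^ 2) s, G t) * c k ≤ ε * c k :=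
      mul_le_mul_of_nonneg_right hGk' (hc k).le
    have h3 : ε * c k = √ε * (1 / 2) ^ k := by
      show ε * ((1 / 2) ^ k / √ε) = _
      have : ε = √ε * √ε := (Real.mul_self_sqrt hε.le).symm
      field_simp
      rw [sq]
      exact this
    have h4 : rr k ^ 2 * (1 / c k) = √ε * (1 / 2) ^ k := by
      show ((1 / 2 : ℝ) ^ k) ^ 2 * (1 / ((1 / 2) ^ k / √ε)) = _
      field_simp
    rw [h4]
    linarith
  have h1 := Finset.sum_le_sum hterm
  rw [← Finset.mul_sum] at h1
  have h2 := mul_le_mul_of_nonneg_left (sum_half n) hsε.le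
  have h3 := mul_le_mul_of_nonneg_left (h1.trans h2) hΛ
  have h4 : 5 * √Λ * ∫ t in I, G t ≤ 5 * √Λ * ε :=
    mul_le_mul_of_nonneg_left hGε (by positivity)
  have h5 : 0 ≤ Λ * √ε := by positivity
  linarith

end Pool.Agent.W930.ME
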